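import Pool.Agent.RSCovers.Main

set_option autoImplicit false

namespace Pool.Agent.Results.MP_634f99_al.CoversAll

open Pool.Agent.RSCovers

/-- The variety generated by `RS n` and the cyclic group of order `p ^ (k + 1)`, where `p ^ k` is
the largest power of the prime `p` that divides `n`. -/
def groupCover (n p : ℕ) : SgVariety :=
  join (RS n) (generatedByOne (Multiplicative (ZMod (p ^ (n.factorization p + 1)))))

/-- For every `n ≥ 1`, the covers of the Rees–Sushkevich variety `RS n` in the lattice of all
semigroup varieties are exactly the varieties `RS n ∨ var T`, where `T` is one of the finite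
semigroups `FactorXYX` (the factors of `xyx`), `TL`, `TR` (the dual of `TL`), `Nil3`
(`{a, a², 0}`), or the cyclic group of order `p ^ (k + 1)` for a prime `p`, where `p ^ k` is the
largest power of `p` dividing `n`; all these varieties are different. -/
theorem result (n : ℕ) (hn : 1 ≤ n) :
    (∀ V : SgVariety, IsCoverIn Set.univ (RS n) V ↔
      V = join (RS n) (generatedByOne FactorXYX) ∨
      V = join (RS n) (generatedByOne TL) ∨
      V = join (RS n) (generatedByOne TR) ∨
      V = join (RS n) (generatedByOne Nil3) ∨
      ∃ p : ℕ, p.Prime ∧ V = groupCover n p) ∧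
    [join (RS n) (generatedByOne FactorXYX), join (RS n) (generatedByOne TL),
      join (RS n) (generatedByOne TR), join (RS n) (generatedByOne Nil3)].Nodup ∧
    (∀ p : ℕ, p.Prime → groupCover n p ∉
      [join (RS n) (generatedByOne FactorXYX), join (RS n) (generatedByOne TL),
        join (RS n) (generatedByOne TR), join (RS n) (generatedByOne Nil3)]) ∧
    (∀ p q : ℕ, p.Prime → q.Prime → groupCover n p = groupCover n q → p = q) := by
  refine ⟨covers_all hn, ?_, ?_, ?_⟩
  · have h1 := CC_ne (TL_notMem_CX hn)
    have h2 := CC_ne (TR_notMem_CX hn)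
    have h3 := CC_ne (Nil3_notMem_of_Ln hn (CX_mem_Ln hn))
    have h4 := CC_ne (TR_notMem_CL hn)
    have h5 := CC_ne (Nil3_notMem_of_Ln hn (CL_mem_Ln hn))
    have h6 := CC_ne (Nil3_notMem_of_Ln hn (CR_mem_Ln hn))
    simp only [CC] at h1 h2 h3 h4 h5 h6
    simp [h1, h2, h3, h4, h5, h6]
  · intro p hp
    have h1 := CC_ne (X_notMem_CZ hn p hp)
    have h2 := CC_ne (TL_notMem_CZ hn p hp)
    have h3 := CC_ne (TR_notMem_CZ hn p hp)
    have h4 := CC_ne (Nil3_notMem_CZ hn p hp)
    simp only [CC] at h1 h2 h3 h4
    simp [groupCover, h1, h2, h3, h4]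
  · intro p q hp hq h
    by_contra hne
    exact CC_ne (cyc_notMem_CZ hn p hp q hq (fun e => hne e.symm)) h

end Pool.Agent.Results.MP_634f99_al.CoversAll
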