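import Pool.Agent.RSCovers.Main

set_option autoImplicit false

namespace Pool.Agent.Results.MP_634f99_al.CoversLn

open Pool.Agent.RSCovers

/-- For every `n ≥ 1`, the covers of the Rees–Sushkevich variety `RS n` in the lattice `Ln n` of
all semigroup varieties satisfying `x ^ 2 = x ^ (n + 2)` are exactly the three varieties
`RS n ∨ var T` with `T` one of the finite semigroups `FactorXYX` (the factors of `xyx`), `TL`
and `TR` (the dual of `TL`), and these three varieties are different. -/
theorem result (n : ℕ) (hn : 1 ≤ n) :
    (∀ V : SgVariety, IsCoverIn (Ln n) (RS n) V ↔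
      V = join (RS n) (generatedByOne FactorXYX) ∨
      V = join (RS n) (generatedByOne TL) ∨
      V = join (RS n) (generatedByOne TR)) ∧
    join (RS n) (generatedByOne FactorXYX) ≠ join (RS n) (generatedByOne TL) ∧
    join (RS n) (generatedByOne FactorXYX) ≠ join (RS n) (generatedByOne TR) ∧
    join (RS n) (generatedByOne TL) ≠ join (RS n) (generatedByOne TR) :=
  ⟨covers_Ln hn, CC_ne (TL_notMem_CX hn), CC_ne (TR_notMem_CX hn), CC_ne (TR_notMem_CL hn)⟩

end Pool.Agent.Results.MP_634f99_al.CoversLn
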