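import Pool.Agent.Helper966.RS.Main

/-!
# All covers of the Rees–Sushkevich varieties `RS_n`

For every `n ≥ 1` all covers of `RS_n` are determined, both in the lattice of all semigroup
varieties and in the lattice of all semigroup varieties satisfying `x² ≈ x^(n+2)`.
The definitions are in `Pool/Agent/Helper966/RS/Defs.lean`.
-/

namespace Pool.Agent.Results.MP_634f99_al.RSCovers

open RSCov

theorem result (n : ℕ) (hn : 1 ≤ n) :
    -- Q1: the covers of `RS_n` in the lattice of all semigroup varieties
    (∀ V : Set Sgp, IsCover AllVarieties (RS n) V ↔ ∃ i : Idx, V = Cov n i) ∧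
    -- Q2: the covers of `RS_n` in the lattice of all varieties satisfying `x² ≈ x^(n+2)`
    (∀ V : Set Sgp, IsCover (VarietiesOfType n) (RS n) V ↔
      V = Cov n Idx.one ∨ V = Cov n Idx.L ∨ V = Cov n Idx.R) ∧
    -- the varieties in these lists are pairwise distinct
    Function.Injective (Cov n) ∧
    -- every variety properly containing `RS_n` contains one of the covers
    (∀ V : Set Sgp, IsVariety V → RS n ⊂ V → ∃ i : Idx, Cov n i ⊆ V) ∧
    -- identity basis of `RS_n`
    (∀ S : Sgp, S ∈ RS n ↔
      (∀ x : S.carrier, spow x 2 = spow x (n + 2)) ∧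
      (∀ x y : S.carrier, x * y * x = spow (x * y) (n + 1) * x) ∧
      (∀ x y z : S.carrier,
        x * y * x * spow (z * x) n = x * spow (z * x) n * y * x)) := by
  refine ⟨cover_all hn, cover_type hn, Cov_inj hn, fun V hV h => contains_cover hn hV h, ?_⟩
  intro S
  rw [mem_RS hn, sat_pow, sat_II, sat_III]

end Pool.Agent.Results.MP_634f99_al.RSCovers
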